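import Pool.Agent.V113.Ser.NumA

set_option autoImplicit false

namespace Pool.Agent.Results.MP_28dd6c_pr.LongerListsHurt

open Pool.Agent.V113.Ser

/-- The positive answer to Q1: for all `q` and all list lengths `d ≤ l`, for all large `n`, every
student `i ≤ nq` is at least as likely to be matched with lists of length `l` as with lists of
length `d` (`probMatched n d q (i - 1)` is the probability that student `i` is matched). -/
def Q1 : Prop :=
  ∀ q d l : ℕ, 1 ≤ q → 1 ≤ d → d ≤ l → ∃ N : ℕ, ∀ n : ℕ, N ≤ n → ∀ i : ℕ, 1 ≤ i → i ≤ n * q →
    probMatched n d q (i - 1) ≤ probMatched n l q (i - 1)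

/-- With two seats per school there is a list length `l ≥ 1390` such that, for all large `n`,
student number `2n` is strictly less likely to be matched with lists of length `l` than with lists
of length `1390`; in particular the answer to Q1 is negative. -/
theorem result :
    (∃ l : ℕ, 1390 ≤ l ∧ ∃ N : ℕ, ∀ n : ℕ, N ≤ n →
      probMatched n l 2 (2 * n - 1) < probMatched n 1390 2 (2 * n - 1)) ∧ ¬ Q1 := by
  refine ⟨main, ?_⟩
  intro h
  obtain ⟨l, hl, N, hN⟩ := main
  obtain ⟨N', hN'⟩ := h 2 1390 l (by norm_num) (by norm_num) hl
  have h1 := hN (max (max N N') 1) ((le_max_left _ _).trans (le_max_left _ _))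
  have h2 := hN' (max (max N N') 1) ((le_max_right _ _).trans (le_max_left _ _))
    (2 * max (max N N') 1) (by have := le_max_right (max N N') 1; omega) (by omega)
  exact absurd h1 (not_lt.mpr h2)

end Pool.Agent.Results.MP_28dd6c_pr.LongerListsHurt
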